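import Pool.Agent.H.MP_c8cff9_gt.H93.Final

/-! Q1 of MP_c8cff9_gt: for every `n ≥ 6` there is a flow on `ℝ^{n+1}` whose quotient is an
`n`-manifold with two-torsion in its third integral homology group. -/

set_option autoImplicit false

namespace Pool.Agent.Results.MP_c8cff9_gt.Torsion

open Pool.Agent.H.MP_c8cff9_gt.H93

/-- For every `n ≥ 6` there is a smooth vector field `V` on `ℝ^{n+1}` with global flow `φ` whose
orbit space is a Hausdorff, second countable `n`-manifold (it is homeomorphic to an open
subset of `ℝ^n`, by a homeomorphism whose composition with the quotient map is a smooth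
submersion), and whose integral homology group `H_3` contains a nonzero class `a` with
`a + a = 0`. -/
theorem result (n : ℕ) (hn : 6 ≤ n) :
    ∃ (V : Rn (n + 1) → Rn (n + 1)) (φ : Flow ℝ (Rn (n + 1))),
      IsFlowOf V φ ∧ IsManifoldOfDim n (OrbitSpace φ) ∧ IsSmoothQuotient n φ ∧
        HasTwoTorsion 3 (OrbitSpace φ) :=
  main n hn

end Pool.Agent.Results.MP_c8cff9_gt.Torsion
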